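import Pool.Agent.W313.BMX.Final
import Pool.Agent.W262.TW.Full
import Pool.Agent.W262.TW.Ex3

/-!
# The Brauer-Manin set of almost all quadratic twists is empty

Let `f k ∈ ℤ[x]` be irreducible over `ℚ`, of even degrees, pairwise non-associated, and let `F k`
be their homogenisations. For all squarefree `d`, `|d| ≤ X`, with at most `C X (log X)^(-δ)`
exceptions, every adelic point of the curve `C d : d y² = ∏ k, F k (x, w)` over `ℚ` is obstructed by
one of the classes `(F k, e)`, `e` a nonzero integer, of the Brauer group of `C d`.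
-/

set_option autoImplicit false

namespace Pool.Agent.Results.MP_308fa9_nt.EmptyBrauerManinSet

open Finset Polynomial Pool.Agent.W313.BMX

/-- The polynomials `X² - 13`, `(X - 1)² - 17`, `(X - 2)² - 221`. -/
noncomputable def ex : Fin 3 → ℤ[X] := ![X ^ 2 - 13, (X - 1) ^ 2 - 17, (X - 2) ^ 2 - 221]

theorem result :
    (∀ (K : Type) [Fintype K] [DecidableEq K] (f : K → ℤ[X]), Admissible f →
      (∃ δ : ℝ, 0 < δ ∧ ∃ C : ℝ, ∀ X : ℕ, 3 ≤ X →
        ({d : ℤ | d.natAbs ≤ X ∧ Squarefree d ∧ ∃ P : AdelicPoint f d, Orthogonal P}.ncard : ℝ) ≤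
          C * X * (Real.log X) ^ (-δ)) ∧
      ∀ d : ℤ, d ≠ 0 → ∀ (P : AdelicPoint f d) (k : K) (e : ℤ), e ≠ 0 →
        (ram (values P k) e).Finite) ∧
    (Admissible ex ∧ ∀ d : ℤ, Nonempty (AdelicPoint ex d)) := by
  refine ⟨fun K _ _ f hf => ⟨?_, fun d hd P k e he => finite_ f hf d hd P k e he⟩, ?_, ?_⟩
  · obtain ⟨δ, hδ, C, hC⟩ := Pool.Agent.W262.TW.fin3_all K f hf.1 hf.2.1 hf.2.2
    refine ⟨δ, hδ, C, fun X hX => ?_⟩
    refine le_trans ?_ (hC X hX)
    have hfinS : {d : ℤ | d.natAbs ≤ X ∧ Squarefree d ∧ Pool.Agent.W262.TW.Sel f d}.Finite := by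
      apply (Set.finite_Icc (-(X : ℤ)) X).subset
      intro d hd
      have h1 : d.natAbs ≤ X := hd.1
      rw [Set.mem_Icc]
      omega
    refine Nat.cast_le.2 (Set.ncard_le_ncard ?_ hfinS)
    rintro d ⟨h1, h2, P, hP⟩
    exact ⟨h1, h2, sel f hf d h2.ne_zero P hP⟩
  · refine ⟨Pool.Agent.W262.TW.ex_irr, fun k => ?_, Pool.Agent.W262.TW.ex_ass⟩
    rw [show (ex k).natDegree = 2 from Pool.Agent.W262.TW.ex_natDegree k]
    exact even_two
  · intro d
    obtain ⟨⟨x, w, y, h1, h2⟩, h3⟩ := Pool.Agent.W262.TW.ex_loc d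
    choose x' w' y' h4 h5 using fun p : Nat.Primes => h3 (p : ℕ)
    exact ⟨⟨⟨x, w, y, h1, h2⟩, fun p => ⟨x' p, w' p, y' p, h4 p, h5 p⟩⟩⟩

end Pool.Agent.Results.MP_308fa9_nt.EmptyBrauerManinSet
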